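import Pool.Agent.Helper68.SK.Goals

/-!
PROJECT SK (MP_2b0227_gt), packet REF: being a bad pair is transitive.
-/

set_option autoImplicit false

namespace Pool.Agent.Helper96.SK

open Finset Pool.Agent.Helper68.SK

section

variable {V E : Type} [Fintype V] [DecidableEq V] [Fintype E] [DecidableEq E] (g : E → V × V)

/-- the indicator of `hit` -/
def hh (a : V ⊕ E) (U : Finset V) : ℤ := if hit g U a then 1 else 0

theorem hh_cases (a : V ⊕ E) (U : Finset V) :
    (hit g U a ∧ hh g a U = 1) ∨ (¬ hit g U a ∧ hh g a U = 0) := by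
  unfold hh
  by_cases h : hit g U a
  · exact Or.inl ⟨h, if_pos h⟩
  · exact Or.inr ⟨h, if_neg h⟩

theorem hit_union (a : V ⊕ E) (U U' : Finset V) : hit g (U ∪ U') a ↔ hit g U a ∨ hit g U' a := by
  cases a with
  | inl v => simp [hit]
  | inr e =>
    simp only [hit, mem_union]
    tauto

theorem hit_univ (a : V ⊕ E) : hit g univ a := by
  cases a with
  | inl v => exact mem_univ v
  | inr e => exact Or.inl (mem_univ _)

theorem hit_nonempty (a : V ⊕ E) (U : Finset V) (h : hit g U a) : U.Nonempty := by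
  cases a with
  | inl v => exact ⟨v, h⟩
  | inr e =>
    rcases h with h | h
    · exact ⟨_, h⟩
    · exact ⟨_, h⟩

theorem okp_iff (hS : GoalSub) (z : V ⊕ E → ℤ) (hz : ∑ a, z a = -1) (a b : V ⊕ E) :
    okp g z a b ↔ ∀ U : Finset V, U.Nonempty → U ≠ univ → mass g z U + hh g a U + hh g b U ≤ 0 := by
  have h4 : ∀ (z : V ⊕ E → ℤ) (U : Finset V) (a : V ⊕ E),
      mass g (z + δ a) U = mass g z U + hh g a U := fun z U a => (hS.1 V E g z).2.2.2.1 U a
  have h7 : ∀ z : V ⊕ E → ℤ, mass g z univ = ∑ a, z a := fun z => (hS.1 V E g z).2.2.2.2.2.2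
  have ht : ∑ x, (z + δ a + δ b) x = 1 := by
    rw [← h7, h4, h4, h7, hz]
    rcases hh_cases g a univ with ⟨_, h⟩ | ⟨h, _⟩
    · rcases hh_cases g b univ with ⟨_, h'⟩ | ⟨h', _⟩
      · rw [h, h']; norm_num
      · exact absurd (hit_univ g b) h'
    · exact absurd (hit_univ g a) h
  constructor
  · intro h U hU hU'
    have := h.2 U hU hU'
    rwa [h4, h4] at this
  · intro h
    refine ⟨ht, fun U hU hU' => ?_⟩
    rw [h4, h4]
    exact h U hU hU'

end

theorem ref : Pool.Agent.Helper68.SK.GoalRef := by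
  intro hS V E _ _ _ _ g z hz hn a b c d hal hab hbc hbd
  rw [okp_iff g hS z hz] at hab hbc hbd ⊢
  have hs2 := (hS.1 V E g z).2.1
  have hs3 := (hS.1 V E g z).2.2.1
  have hs6 := (hS.1 V E g z).2.2.2.2.2.1
  push Not at hab hbc
  obtain ⟨U₁, hn1, hp1, h1⟩ := hab
  obtain ⟨U₂, hn2, hp2, h2⟩ := hbc
  have g1 := hbd U₁ hn1 hp1
  have g2 := hbd U₂ hn2 hp2
  intro hac
  have k1 := hac U₁ hn1 hp1
  have k2 := hac U₂ hn2 hp2
  have a1 := hh_cases g a U₁
  have b1 := hh_cases g b U₁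
  have c1 := hh_cases g c U₁
  have d1 := hh_cases g d U₁
  have a2 := hh_cases g a U₂
  have b2 := hh_cases g b U₂
  have c2 := hh_cases g c U₂
  have d2 := hh_cases g d U₂
  obtain ⟨ha1, ha1'⟩ : hit g U₁ a ∧ hh g a U₁ = 1 := by
    rcases a1 with a1 | a1
    · exact a1
    · exfalso
      rcases d1 with d1 | d1 <;> omega
  obtain ⟨hd1, hd1'⟩ : ¬ hit g U₁ d ∧ hh g d U₁ = 0 := by
    rcases d1 with d1 | d1
    · exfalso; omega
    · exact d1
  obtain ⟨hc2, hc2'⟩ : hit g U₂ c ∧ hh g c U₂ = 1 := by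
    rcases c2 with c2 | c2
    · exact c2
    · exfalso
      rcases d2 with d2 | d2 <;> omega
  obtain ⟨hd2, hd2'⟩ : ¬ hit g U₂ d ∧ hh g d U₂ = 0 := by
    rcases d2 with d2 | d2
    · exfalso; omega
    · exact d2
  obtain ⟨hb1, hb1'⟩ : hit g U₁ b ∧ hh g b U₁ = 1 := by
    rcases b1 with b1 | b1
    · exact b1
    · exfalso
      rcases c1 with c1 | c1 <;> omega
  obtain ⟨hb2, hb2'⟩ : hit g U₂ b ∧ hh g b U₂ = 1 := by
    rcases b2 with b2 | b2
    · exact b2
    · exfalso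
      rcases a2 with a2 | a2 <;> omega
  have hnu : (U₁ ∪ U₂).Nonempty := hn1.mono subset_union_left
  have hpu : U₁ ∪ U₂ ≠ univ := by
    intro h
    have h' := hit_univ g d
    rw [← h, hit_union] at h'
    rcases h' with h' | h'
    · exact hd1 h'
    · exact hd2 h'
  have ku := hac _ hnu hpu
  have hau : hh g a (U₁ ∪ U₂) = 1 := by
    rcases hh_cases g a (U₁ ∪ U₂) with h | h
    · exact h.2
    · exact absurd ((hit_union g a U₁ U₂).2 (Or.inl ha1)) h.1
  have hcu : hh g c (U₁ ∪ U₂) = 1 := by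
    rcases hh_cases g c (U₁ ∪ U₂) with h | h
    · exact h.2
    · exact absurd ((hit_union g c U₁ U₂).2 (Or.inr hc2)) h.1
  have hpi : U₁ ∩ U₂ ≠ univ := by
    intro h
    apply hp1
    apply eq_univ_of_forall
    intro v
    have : v ∈ U₁ ∩ U₂ := by rw [h]; exact mem_univ v
    exact (mem_inter.1 this).1
  have hd0 : 0 ≤ hh g d (U₁ ∩ U₂) := by
    rcases hh_cases g d (U₁ ∩ U₂) with h | h <;> rw [h.2]
    norm_num
  rcases hh_cases g b (U₁ ∩ U₂) with hbi | hbi
  · have e1 := hbd _ (hit_nonempty g b _ hbi.1) hpi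
    have e2 := hs2 U₁ U₂ hn
    have := hbi.2
    omega
  · -- `b` is an edge
    cases b with
    | inl v => exact hbi.1 (mem_inter.2 ⟨hb1, hb2⟩)
    | inr e =>
      have e2 := hs3 U₁ U₂ e hn hb1 hb2 hbi.1
      have e3 : z (.inr e) ≤ -1 := hal
      have e4 : mass g z (U₁ ∩ U₂) ≤ 0 := by
        rcases (U₁ ∩ U₂).eq_empty_or_nonempty with h | h
        · rw [h, hs6]
        · have := hbd _ h hpi
          have := hbi.2
          omega
      omega

end Pool.Agent.Helper96.SK
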